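import Pool.Agent.R3.Cover3

/-!
# Minimal universal-cover growth rate for degrees two and three (MP_879d0a_co, Q1)

The minimum of `ρ(G)` over the class `𝒢_{2,3}` is `ρ(K₄⁻)`, the real root of `x³ = x + 2`.

The lower bound is an entropy bound. Give every edge between two vertices of degree three the
weight `a = 4 / ρ³` and every other edge the weight `1`. At a vertex with incident weights
`w₁, w₂, w₃` put the flow `(wᵢ + wⱼ - wₖ) / 2` through the pair `i, j`. This defines a stationary
non-backtracking Markov chain on every graph of the class. Its entropy is at least `log ρ(K₄⁻)` times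
the total weight, by a local inequality for the four possible numbers of neighbours of degree three
and a double counting of the edges between the two degree classes.
-/

set_option autoImplicit false

namespace Pool.Agent.Results.MP_879d0a_co.MinimalGrowth

open Pool.Agent.R3.Cover

theorem result : ∃ r : ℝ, 0 < r ∧ r ^ 3 = r + 2 ∧
    InClass K4minus ∧ rho K4minus = ENNReal.ofReal r ∧
    ∀ (V : Type) [Fintype V] [DecidableEq V] (G : SimpleGraph V) [DecidableRel G.Adj],
      InClass G → ENNReal.ofReal r ≤ rho G := by
  obtain ⟨r, h1, h2, h3⟩ := exists_root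
  have hc : Consts r (4 / r ^ 3) (Real.log r) := ⟨h1, h2, h3, rfl, rfl⟩
  have hr : 0 < r := by linarith
  have hlow : ∀ (V : Type) [Fintype V] [DecidableEq V] (G : SimpleGraph V) [DecidableRel G.Adj],
      InClass G → ENNReal.ofReal r ≤ rho G := by
    intro V _ _ G _ hG
    have hne : Nonempty V := hG.1.nonempty
    exact le_rho G r hr.le (growth G hG.2.1 hc hG.2.2)
  exact ⟨r, hr, h3, K4minus_inClass,
    le_antisymm (rho_K4minus_le hc) (hlow (Fin 4) K4minus K4minus_inClass), hlow⟩

end Pool.Agent.Results.MP_879d0a_co.MinimalGrowth
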